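import Pool.Agent.Lib.MP_bf61d2_nt.Zeta.ZetaCos

set_option autoImplicit false

/-!
The Dedekind zeta function near `s = 1`, and the sum of `q_v ^ (-σ) cos (u log q_v)` for small `u`.
-/

namespace Pool.Agent.Lib.MP_bf61d2_nt.Zeta

open Filter Topology NumberField IsDedekindDomain NumberField.mixedEmbedding NumberField.Units
open NumberField.mixedEmbedding.fundamentalCone
open Module
open scoped Classical nonZeroDivisors
open Pool.Agent.Lib.MP_bf61d2_nt.Edge

/-- A function analytic at `1` which agrees with `den * ζ_K`. -/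
theorem exists_mul_den (K : Type*) [Field K] [NumberField K] :
    ∃ G : ℂ → ℂ, AnalyticAt ℂ G 1 ∧ ∀ s : ℂ, 1 < s.re →
      G s = (1 - (2 : ℂ) ^ finrank ℚ K * fac K 2 s) * dedekindZeta K s := by
  have hw : (torsionOrder K : ℂ) ≠ 0 := Nat.cast_ne_zero.mpr (torsionOrder_ne_zero K)
  choose J hJ using fun C : ClassGroup (𝓞 K) => ClassGroup.mk0_surjective C⁻¹
  have hen : ∀ n : ℕ, Differentiable ℂ fun s => en s n := by
    intro n
    unfold en
    fun_prop
  refine ⟨fun s => ∑ C, (torsionOrder K * en s (Ideal.absNorm (J C : Ideal (𝓞 K))))⁻¹ *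
    (Ds (fractionalIdealLatticeBasis K (FractionalIdeal.mk0 K (J C))) 2 s), ?_, ?_⟩
  · refine Finset.analyticAt_fun_sum _ fun C _ => ?_
    refine AnalyticAt.mul ?_ ?_
    · refine AnalyticAt.inv ?_ (mul_ne_zero hw (en_ne_zero _ _))
      exact analyticAt_const.mul ((hen _).analyticAt _)
    · have h := analyticAt_Ds (fractionalIdealLatticeBasis K (FractionalIdeal.mk0 K (J C)))
        (fun a ha => one_le_norm_pt (isBasisOf_fractionalIdealLatticeBasis (J C)) ha) 2 0
      simpa using h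
  · intro s hre
    have h2 := fun C => unfold (isBasisOf_fractionalIdealLatticeBasis (J C)) hre
    rw [dedekindZeta_eq J hJ fun C => (h2 C).1, Finset.mul_sum]
    refine Finset.sum_congr rfl fun C _ => ?_
    have h3 : Fintype.card (Free.ChooseBasisIndex ℤ
        (FractionalIdeal.mk0 K (J C) : FractionalIdeal (𝓞 K)⁰ K)) = finrank ℚ K := by
      rw [← finrank_eq_card_chooseBasisIndex, fractionalIdeal_rank,
        RingOfIntegers.rank]
    have h4 := dilation (fractionalIdealLatticeBasis K (FractionalIdeal.mk0 K (J C))) (fun a ha =>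
        one_le_norm_pt (isBasisOf_fractionalIdealLatticeBasis (J C)) ha) 2 hre
    rw [← (h2 C).2, ← h4, h3]
    push_cast
    ring

theorem zeta_near (K : Type*) [Field K] [NumberField K] :
    ∃ r : ℝ, 0 < r ∧ ∃ C : ℝ, 0 < C ∧ ∀ s : ℂ, 1 < s.re → ‖s - 1‖ < r →
      ‖dedekindZeta K s‖ ≤ C / ‖s - 1‖ := by
  obtain ⟨G, hG, hGs⟩ := exists_mul_den K
  set a : ℝ := finrank ℚ K * Real.log 2 with ha
  have ha0 : 0 < a := by
    have h1 : (0 : ℝ) < finrank ℚ K := by exact_mod_cast finrank_pos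
    have h2 : 0 < Real.log 2 := Real.log_pos (by norm_num)
    positivity
  have hden : ∀ s : ℂ, (1 - (2 : ℂ) ^ finrank ℚ K * fac K 2 s) =
      1 - Complex.exp (-(a : ℂ) * (s - 1)) := by
    intro s
    have h1 : (2 : ℂ) ^ finrank ℚ K = Complex.exp (a : ℂ) := by
      rw [ha, Complex.ofReal_mul, Complex.ofReal_natCast, Complex.exp_nat_mul,
        ← Complex.ofReal_exp, Real.exp_log (by norm_num)]
      norm_num
    rw [h1, fac, ← Complex.exp_add]
    congr 2
    rw [ha]
    push_cast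
    ring
  -- the bound for G
  have hb : ∀ᶠ s in 𝓝 (1 : ℂ), ‖G s‖ < ‖G 1‖ + 1 := by
    have h1 : ContinuousAt (fun s => ‖G s‖) 1 := hG.continuousAt.norm
    exact h1.eventually (gt_mem_nhds (by linarith))
  obtain ⟨r₁, hr₁, hr₁'⟩ := Metric.eventually_nhds_iff.mp hb
  refine ⟨min r₁ (1 / (2 * a)), lt_min hr₁ (by positivity), 2 * (‖G 1‖ + 1) / a, by positivity,
    fun s hs hsr => ?_⟩
  have hs1 : dist s 1 < r₁ := by
    rw [dist_eq_norm]
    exact lt_of_lt_of_le hsr (min_le_left _ _)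
  have hs2 : ‖s - 1‖ < 1 / (2 * a) := lt_of_lt_of_le hsr (min_le_right _ _)
  have hne : s - 1 ≠ 0 := by
    intro h
    have h1 : s = 1 := sub_eq_zero.mp h
    rw [h1, Complex.one_re] at hs
    exact lt_irrefl _ hs
  have hpos : 0 < ‖s - 1‖ := norm_pos_iff.mpr hne
  have h3 := hr₁' hs1
  rw [hGs s hs, hden s, norm_mul] at h3
  set z : ℂ := -(a : ℂ) * (s - 1) with hz
  have hzn : ‖z‖ = a * ‖s - 1‖ := by
    rw [hz, norm_mul, norm_neg, Complex.norm_real, Real.norm_eq_abs, abs_of_pos ha0]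
  have hz1 : ‖z‖ ≤ 1 / 2 := by
    rw [hzn]
    calc a * ‖s - 1‖ ≤ a * (1 / (2 * a)) := by gcongr
      _ = 1 / 2 := by field_simp
  have hlow : ‖z‖ / 2 ≤ ‖1 - Complex.exp z‖ := by
    have h4 := Complex.norm_exp_sub_one_sub_id_le (x := z) (by linarith)
    have h5 : ‖z‖ ≤ ‖Complex.exp z - 1 - z‖ + ‖1 - Complex.exp z‖ := by
      have h6 : z = -(Complex.exp z - 1 - z) + -(1 - Complex.exp z) := by ring
      calc ‖z‖ = ‖-(Complex.exp z - 1 - z) + -(1 - Complex.exp z)‖ := by rw [← h6]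
        _ ≤ ‖-(Complex.exp z - 1 - z)‖ + ‖-(1 - Complex.exp z)‖ := norm_add_le _ _
        _ = _ := by rw [norm_neg, norm_neg]
    nlinarith [norm_nonneg z]
  have hlow' : a * ‖s - 1‖ / 2 * ‖dedekindZeta K s‖ ≤ ‖G 1‖ + 1 := by
    rw [hzn] at hlow
    calc a * ‖s - 1‖ / 2 * ‖dedekindZeta K s‖ ≤ ‖1 - Complex.exp z‖ * ‖dedekindZeta K s‖ := by
          gcongr
      _ ≤ _ := h3.le
  rw [div_div, le_div_iff₀ (by positivity)]
  nlinarith

variable {L : Type*} [Field L] [NumberField L]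

lemma summable_wp_cos {η : ℝ} (hη : 0 < η) (u : ℝ) :
    Summable fun v : HeightOneSpectrum (𝓞 L) =>
      wp (1 + η) v * Real.cos (u * Real.log (nm v)) := by
  refine Summable.of_norm_bounded (summable_wp (K := L) (σ := 1 + η) (by linarith)) fun v => ?_
  rw [norm_mul, Real.norm_eq_abs, Real.norm_eq_abs, abs_of_pos (wp_pos _ _)]
  exact mul_le_of_le_one_right (wp_pos _ _).le (Real.abs_cos_le_one _)

lemma tsum_cos_sub_le {η : ℝ} (hη : 0 < η) (u : ℝ) :
    |Real.log ‖dedekindZeta L (1 + η + u * Complex.I)‖ -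
      ∑' v : HeightOneSpectrum (𝓞 L), wp (1 + η) v * Real.cos (u * Real.log (nm v))| ≤
      sqC L := by
  have hs : 1 < (1 + η + u * Complex.I : ℂ).re := by simpa using hη
  have hz := tendsto_euler (K := L) hs
  have hne : dedekindZeta L (1 + η + u * Complex.I) ≠ 0 := ne_zero_of_pos hη u
  have hlog : Tendsto (fun S : Finset (HeightOneSpectrum (𝓞 L)) =>
      ∑ v ∈ S, Real.log ‖(1 - (nm v : ℂ) ^ (-(1 + η + u * Complex.I : ℂ)))⁻¹‖) atTop
      (𝓝 (Real.log ‖dedekindZeta L (1 + η + u * Complex.I)‖)) := by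
    refine (hz.norm.log (norm_ne_zero_iff.mpr hne)).congr fun S => ?_
    rw [norm_prod, Real.log_prod]
    intro v _
    rw [norm_ne_zero_iff]
    apply inv_ne_zero
    intro h
    have h1 : (nm v : ℂ) ^ (-(1 + η + u * Complex.I : ℂ)) = 1 := (sub_eq_zero.mp h).symm
    have h2 := norm_local (K := L) hs v
    rw [h1, norm_one] at h2
    exact lt_irrefl _ h2
  have hlim : Tendsto (fun S : Finset (HeightOneSpectrum (𝓞 L)) =>
      ∑ v ∈ S, wp (1 + η) v * Real.cos (u * Real.log (nm v))) atTop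
      (𝓝 (∑' v : HeightOneSpectrum (𝓞 L), wp (1 + η) v * Real.cos (u * Real.log (nm v)))) :=
    (summable_wp_cos hη u).hasSum
  refine le_of_tendsto' (hlog.sub hlim).abs fun S => ?_
  rw [← Finset.sum_sub_distrib]
  refine (Finset.abs_sum_le_sum_abs _ _).trans ?_
  refine (Finset.sum_le_sum fun v _ => local_approx hη u v).trans ?_
  exact sum_wp_sq_le (by linarith) S

/-- The local bound. -/
theorem exp_cos_near (L : Type*) [Field L] [NumberField L] :
    ∃ r : ℝ, 0 < r ∧ ∃ C : ℝ, 0 < C ∧ ∀ η : ℝ, 0 < η → η < r → ∀ u : ℝ, u ≠ 0 → |u| < r →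
      Real.exp (∑' v : HeightOneSpectrum (𝓞 L), wp (1 + η) v * Real.cos (u * Real.log (nm v))) ≤
        C / |u| := by
  obtain ⟨r, hr, C, hC, h⟩ := zeta_near L
  refine ⟨r / 2, half_pos hr, C * Real.exp (sqC L), by positivity, fun η hη hηr u hu hur => ?_⟩
  have h1 := tsum_cos_sub_le (L := L) hη u
  have hre : 1 < (1 + η + u * Complex.I : ℂ).re := by simpa using hη
  have hsub : (1 + η + u * Complex.I : ℂ) - 1 = η + u * Complex.I := by ring
  have h2 : ‖(1 + η + u * Complex.I : ℂ) - 1‖ < r := by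
    rw [hsub]
    calc ‖(η + u * Complex.I : ℂ)‖ ≤ ‖(η : ℂ)‖ + ‖(u * Complex.I : ℂ)‖ := norm_add_le _ _
      _ = |η| + |u| := by
        rw [norm_mul, Complex.norm_I, mul_one, Complex.norm_real, Complex.norm_real,
          Real.norm_eq_abs, Real.norm_eq_abs]
      _ < r := by rw [abs_of_pos hη]; linarith
  have h3 := h _ hre h2
  have h4 : |u| ≤ ‖(1 + η + u * Complex.I : ℂ) - 1‖ := by
    rw [hsub]
    have := Complex.abs_im_le_norm (η + u * Complex.I : ℂ)
    simpa using this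
  have hu0 : 0 < |u| := abs_pos.mpr hu
  have h5 : ‖dedekindZeta L (1 + η + u * Complex.I)‖ ≤ C / |u| :=
    h3.trans (div_le_div_of_nonneg_left hC.le hu0 h4)
  have hne : 0 < ‖dedekindZeta L (1 + η + u * Complex.I)‖ :=
    norm_pos_iff.mpr (ne_zero_of_pos hη u)
  have h6 := (abs_le.mp h1).1
  calc Real.exp (∑' v : HeightOneSpectrum (𝓞 L), wp (1 + η) v * Real.cos (u * Real.log (nm v)))
      ≤ Real.exp (Real.log ‖dedekindZeta L (1 + η + u * Complex.I)‖ + sqC L) :=
        Real.exp_le_exp.mpr (by linarith)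
    _ = ‖dedekindZeta L (1 + η + u * Complex.I)‖ * Real.exp (sqC L) := by
        rw [Real.exp_add, Real.exp_log hne]
    _ ≤ C / |u| * Real.exp (sqC L) := by gcongr
    _ = _ := by ring

end Pool.Agent.Lib.MP_bf61d2_nt.Zeta
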