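import Pool.Agent.Lib.MP_bf61d2_nt.Hardy.MajorCos
import Pool.Agent.Lib.MP_bf61d2_nt.Hardy.Near
import Pool.Agent.Lib.MP_bf61d2_nt.Line

set_option autoImplicit false

/-!
The logarithm of the L-series in the half plane `re s > 3/2`.
-/

namespace Pool.Agent.Lib.MP_bf61d2_nt.Hardy

open Filter Topology NumberField IsDedekindDomain MeasureTheory Set

variable {K : Type*} [Field K] [NumberField K] (W : WeierstrassCurve K)

/-- The logarithm of the L-series. -/
noncomputable def FL (s : ℂ) : ℂ := LSeries (fun n => (cp W n : ℂ)) (s - 1 / 2) + Rem W s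

lemma exp_FL {s : ℂ} (hs : 3 / 2 < s.re) : Complex.exp (FL W s) = W.LSeries s :=
  (structure_formula W hs).symm

lemma differentiableOn_rho (v : HeightOneSpectrum (𝓞 K)) :
    DifferentiableOn ℂ (rho W v) {s | 3 / 2 < s.re} := by
  have h0 : (nm v : ℂ) ≠ 0 := by
    have := nm_pos v
    exact_mod_cast this.ne'
  have hc : ∀ g : ℂ → ℂ, Differentiable ℂ g → Differentiable ℂ fun s => (nm v : ℂ) ^ (g s) :=
    fun g hg => fun s => (hg s).const_cpow (Or.inl h0)
  have hz : Differentiable ℂ (zv W v) := by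
    unfold zv
    have := hc (fun s => -s) (by fun_prop)
    fun_prop
  unfold rho lam
  refine DifferentiableOn.sub (DifferentiableOn.neg ?_) ?_
  · refine DifferentiableOn.clog (by fun_prop) fun s hs => ?_
    have h1 := norm_zv_lt W v (le_of_lt hs)
    rw [sub_eq_add_neg]
    exact Complex.mem_slitPlane_of_norm_lt_one (by rw [norm_neg]; linarith)
  · have := hc (fun s => -(s - 1 / 2)) (by fun_prop)
    fun_prop

lemma isOpen_half (a : ℝ) : IsOpen {s : ℂ | a < s.re} :=
  isOpen_lt continuous_const Complex.continuous_re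

lemma differentiableOn_Rem : DifferentiableOn ℂ (Rem W) {s | 3 / 2 < s.re} :=
  Complex.differentiableOn_tsum_of_summable_norm summable_bound
    (fun v => differentiableOn_rho W v) (isOpen_half _)
    fun v _ hs => norm_rho_le W v (le_of_lt hs)

lemma differentiableOn_FL : DifferentiableOn ℂ (FL W) {s | 3 / 2 < s.re} := by
  refine DifferentiableOn.add ?_ (differentiableOn_Rem W)
  have h1 : LSeries.abscissaOfAbsConv (fun n => (cp W n : ℂ)) ≤ (1 : ℝ) := by
    refine LSeries.abscissaOfAbsConv_le_of_forall_lt_LSeriesSummable fun y hy => ?_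
    exact (hasSum_cp W (w := y) (by simpa using hy)).LSeriesSummable
  have h2 := LSeries_differentiableOn (fun n => (cp W n : ℂ))
  refine DifferentiableOn.comp (t := {s : ℂ | LSeries.abscissaOfAbsConv
    (fun n => (cp W n : ℂ)) < s.re}) h2 (by fun_prop) fun s hs => ?_
  have hs' : (3 / 2 : ℝ) < s.re := hs
  have h3 : (1 : ℝ) < (s - 1 / 2).re := by
    have : (s - 1 / 2).re = s.re - 1 / 2 := by simp
    rw [this]; linarith
  exact lt_of_le_of_lt h1 (by exact_mod_cast h3)

lemma line_mem {δ : ℝ} (hδ : 0 < δ) (u : ℝ) :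
    (3 / 2 : ℝ) < (((3 / 2 + δ : ℝ) : ℂ) + u * Complex.I).re := by
  simp [hδ]

lemma continuous_FL_line {δ : ℝ} (hδ : 0 < δ) :
    Continuous fun u : ℝ => FL W (((3 / 2 + δ : ℝ) : ℂ) + u * Complex.I) :=
  (differentiableOn_FL W).continuousOn.comp_continuous (by fun_prop) fun u => line_mem hδ u

lemma cpow_ch (δ u : ℝ) (v : HeightOneSpectrum (𝓞 K)) :
    (nm v : ℂ) ^ (-((((3 / 2 + δ : ℝ) : ℂ) + u * Complex.I) - 1 / 2)) =
      (wp (1 + δ) v : ℂ) * ch (-Real.log (nm v)) u := by
  have hvpos : (0 : ℝ) < nm v := nm_pos' v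
  have hv0 : ((nm v : ℕ) : ℂ) ≠ 0 := by exact_mod_cast hvpos.ne'
  have e : (-((((3 / 2 + δ : ℝ) : ℂ) + u * Complex.I) - 1 / 2)) =
      -((1 + δ : ℝ) : ℂ) + -(u * Complex.I) := by
    push_cast
    ring
  rw [e, Complex.cpow_add _ _ hv0]
  have e0 : (nm v : ℂ) ^ (-((1 + δ : ℝ) : ℂ)) = (wp (1 + δ) v : ℝ) := by
    rw [wp, Complex.ofReal_cpow hvpos.le]
    push_cast
    rfl
  have e1 : (nm v : ℂ) ^ (-(u * Complex.I : ℂ)) = ch (-Real.log (nm v)) u := by
    rw [Complex.cpow_def_of_ne_zero hv0, ← Complex.ofReal_natCast, ← Complex.ofReal_log hvpos.le, ch]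
    congr 1
    push_cast
    ring
  rw [e0, e1]

lemma FL_line {δ : ℝ} (hδ : 0 < δ) (u : ℝ) :
    FL W (((3 / 2 + δ : ℝ) : ℂ) + u * Complex.I) =
      ∑' v, ((cc W v * wp (1 + δ) v : ℝ) : ℂ) * ch (-Real.log (nm v)) u +
        Rem W (((3 / 2 + δ : ℝ) : ℂ) + u * Complex.I) := by
  have hre : 1 < ((((3 / 2 + δ : ℝ) : ℂ) + u * Complex.I) - 1 / 2).re := by
    simp
    linarith
  rw [FL, (hasSum_cp W hre).LSeries_eq]
  congr 1
  refine tsum_congr fun v => ?_
  rw [cpow_ch]
  push_cast
  ring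

lemma countable_places (K : Type*) [Field K] [NumberField K] :
    Countable (HeightOneSpectrum (𝓞 K)) := by
  have h := (summable_wp (K := K) (σ := 2) (by norm_num)).countable_support
  have e : (Function.support fun v : HeightOneSpectrum (𝓞 K) => wp 2 v) = Set.univ := by
    ext v
    simp only [Function.mem_support, Set.mem_univ, iff_true]
    exact (wp_pos 2 v).ne'
  rw [e] at h
  exact Set.countable_univ_iff.mp h

/-- A crude bound away from the line. -/
lemma norm_FL_le {δ : ℝ} (hδ : 0 < δ) (u : ℝ) :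
    ‖FL W (((3 / 2 + δ : ℝ) : ℂ) + u * Complex.I)‖ ≤ 2 * PS K (1 + δ) + RB K := by
  rw [FL_line W hδ]
  refine (norm_add_le _ _).trans (add_le_add ?_ (norm_Rem_le W (line_mem hδ u).le))
  rw [PS, ← tsum_mul_left]
  refine tsum_of_norm_bounded ((summable_wp (K := K) (σ := 1 + δ) (by linarith)).mul_left 2).hasSum
    fun v => ?_
  rw [norm_mul, norm_ch, mul_one, Complex.norm_real, Real.norm_eq_abs, abs_mul,
    abs_of_pos (wp_pos _ _)]
  exact mul_le_mul_of_nonneg_right (abs_cc_le W v) (wp_pos _ _).le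

lemma PS_anti {σ τ : ℝ} (hσ : 1 < σ) (h : σ ≤ τ) : PS K τ ≤ PS K σ := by
  refine (summable_wp (by linarith)).tsum_le_tsum (fun v => ?_) (summable_wp hσ)
  exact Real.rpow_le_rpow_of_exponent_le (by exact_mod_cast (one_lt_nm v).le) (by linarith)

/-- The integrand. -/
noncomputable def EG (w : ℂ) (δ u : ℝ) : ℝ :=
  Real.exp (w * FL W (((3 / 2 + δ : ℝ) : ℂ) + u * Complex.I)).re

lemma continuous_EG (w : ℂ) {δ : ℝ} (hδ : 0 < δ) : Continuous (EG W w δ) := by
  unfold EG
  exact Real.continuous_exp.comp (Complex.continuous_re.comp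
    (continuous_const.mul (continuous_FL_line W hδ)))

lemma EG_nonneg (w : ℂ) (δ u : ℝ) : 0 ≤ EG W w δ u := (Real.exp_pos _).le

lemma EG_le {w : ℂ} {δ : ℝ} (hδ : 0 < δ) (u : ℝ) :
    EG W w δ u ≤ Real.exp (‖w‖ * RB K) * Real.exp (2 * (∑' v,
      (w * ((cc W v * wp (1 + δ) v : ℝ) : ℂ) / 2) * ch (-Real.log (nm v)) u).re) := by
  rw [EG, ← Real.exp_add, Real.exp_le_exp, FL_line W hδ, mul_add, Complex.add_re, add_comm]
  refine add_le_add ?_ (le_of_eq ?_)
  · refine (Complex.re_le_norm _).trans ?_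
    rw [norm_mul]
    exact mul_le_mul_of_nonneg_left (norm_Rem_le W (line_mem hδ u).le) (norm_nonneg _)
  · have e : ∀ v : HeightOneSpectrum (𝓞 K),
        (w * ((cc W v * wp (1 + δ) v : ℝ) : ℂ) / 2) * ch (-Real.log (nm v)) u =
        (1 / 2 : ℂ) * (w * (((cc W v * wp (1 + δ) v : ℝ) : ℂ) * ch (-Real.log (nm v)) u)) := by
      intro v
      ring
    have e2 : ∀ z : ℂ, 2 * ((1 / 2 : ℂ) * z).re = z.re := by
      intro z
      simp
    simp_rw [e]
    rw [tsum_mul_left, tsum_mul_left, e2]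

/-- The majorant principle for the L-series. -/
lemma EG_major {ν : Measure ℝ} [IsFiniteMeasure ν] (hν : PD ν) (w : ℂ) {δ : ℝ} (hδ : 0 < δ)
    (x : ℝ) :
    ∫ t, EG W w δ (x + t) ∂ν ≤ Real.exp (‖w‖ * RB K) *
      ∫ t, Real.exp (∑' v : HeightOneSpectrum (𝓞 K),
        wp (1 + δ) v * Real.cos (t * Real.log (nm v))) ^ (2 * ‖w‖) ∂ν := by
  have := countable_places K
  have hsw := summable_wp (K := K) (σ := 1 + δ) (by linarith)
  set a : HeightOneSpectrum (𝓞 K) → ℂ := fun v => w * ((cc W v * wp (1 + δ) v : ℝ) : ℂ) / 2 with ha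
  set b : HeightOneSpectrum (𝓞 K) → ℝ := fun v => ‖w‖ * wp (1 + δ) v with hb
  have hab : ∀ v, ‖a v‖ ≤ b v := by
    intro v
    rw [ha, hb]
    simp only
    rw [norm_div, norm_mul, Complex.norm_real, Real.norm_eq_abs, abs_mul, abs_of_pos (wp_pos _ _)]
    have h1 := abs_cc_le W v
    have h2 := wp_pos (1 + δ) v
    have h3 : ‖(2 : ℂ)‖ = 2 := by simp
    rw [h3, div_le_iff₀ (by norm_num)]
    calc ‖w‖ * (|cc W v| * wp (1 + δ) v) ≤ ‖w‖ * (2 * wp (1 + δ) v) := by gcongr
      _ = _ := by ring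
  have hbs : Summable b := hsw.mul_left _
  have hm := major_re (ν := ν) hν (lam := fun v => -Real.log (nm v)) hab hbs x
  have has : Summable fun v => ‖a v‖ := Summable.of_nonneg_of_le (fun _ => norm_nonneg _) hab hbs
  have hcont : Continuous fun t : ℝ =>
      Real.exp (2 * (∑' v, a v * ch (-Real.log (nm v)) (x + t)).re) := by
    have h1 : Continuous fun t : ℝ => ∑' v, a v * ch (-Real.log (nm v)) (x + t) :=
      (continuous_TS (fun v : HeightOneSpectrum (𝓞 K) => -Real.log (nm v)) has).comp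
        (continuous_const.add continuous_id)
    exact Real.continuous_exp.comp (continuous_const.mul (Complex.continuous_re.comp h1))
  have hint : Integrable (fun t : ℝ =>
      Real.exp (2 * (∑' v, a v * ch (-Real.log (nm v)) (x + t)).re)) ν := by
    refine Integrable.of_bound hcont.aestronglyMeasurable (Real.exp (2 * ∑' v, ‖a v‖))
      (Eventually.of_forall fun t => ?_)
    rw [Real.norm_eq_abs, abs_of_pos (Real.exp_pos _), Real.exp_le_exp]
    have h1 := norm_TS_le (fun v : HeightOneSpectrum (𝓞 K) => -Real.log (nm v)) has (x + t)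
    have h2 := (Complex.re_le_norm (∑' v, a v * ch (-Real.log (nm v)) (x + t))).trans h1
    linarith
  have hint1 : Integrable (fun t : ℝ => EG W w δ (x + t)) ν := by
    refine Integrable.mono' (hint.const_mul (Real.exp (‖w‖ * RB K)))
      ((continuous_EG W w hδ).comp (continuous_const.add continuous_id)).aestronglyMeasurable
      (Eventually.of_forall fun t => ?_)
    rw [Real.norm_eq_abs, abs_of_nonneg (EG_nonneg W w δ _)]
    exact EG_le W hδ (x + t)
  calc ∫ t, EG W w δ (x + t) ∂ν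
      ≤ ∫ t, Real.exp (‖w‖ * RB K) *
          Real.exp (2 * (∑' v, a v * ch (-Real.log (nm v)) (x + t)).re) ∂ν :=
        integral_mono hint1 (hint.const_mul _) fun t => EG_le W hδ (x + t)
    _ = Real.exp (‖w‖ * RB K) *
          ∫ t, Real.exp (2 * (∑' v, a v * ch (-Real.log (nm v)) (x + t)).re) ∂ν :=
        integral_const_mul _ _
    _ ≤ Real.exp (‖w‖ * RB K) *
          ∫ t, Real.exp (2 * ∑' v, b v * Real.cos (t * -Real.log (nm v))) ∂ν :=
        mul_le_mul_of_nonneg_left hm (Real.exp_pos _).le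
    _ = _ := by
        congr 1
        refine integral_congr_ae (Eventually.of_forall fun t => ?_)
        simp only
        rw [← Real.exp_mul]
        congr 1
        have e : ∀ v : HeightOneSpectrum (𝓞 K), b v * Real.cos (t * -Real.log (nm v)) =
            ‖w‖ * (wp (1 + δ) v * Real.cos (t * Real.log (nm v))) := by
          intro v
          rw [mul_neg, Real.cos_neg]
          simp only [hb]
          ring
        simp_rw [e]
        rw [tsum_mul_left]
        ring

end Pool.Agent.Lib.MP_bf61d2_nt.Hardy
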