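import Mathlib

set_option autoImplicit false

/-!
A majorant principle for exponentials of absolutely convergent trigonometric series, with respect
to a finite measure whose Fourier transform is nonnegative.
-/

namespace Pool.Agent.Lib.MP_bf61d2_nt.Hardy

open MeasureTheory

/-- The character. -/
noncomputable def ch (l t : ℝ) : ℂ := Complex.exp ((l * t : ℝ) * Complex.I)

lemma norm_ch (l t : ℝ) : ‖ch l t‖ = 1 := Complex.norm_exp_ofReal_mul_I _

lemma ch_zero (t : ℝ) : ch 0 t = 1 := by simp [ch]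

lemma ch_add (l m t : ℝ) : ch (l + m) t = ch l t * ch m t := by
  rw [ch, ch, ch, ← Complex.exp_add]
  congr 1
  push_cast
  ring

lemma ch_add_arg (l s t : ℝ) : ch l (s + t) = ch l s * ch l t := by
  rw [ch, ch, ch, ← Complex.exp_add]
  congr 1
  push_cast
  ring

lemma continuous_ch (l : ℝ) : Continuous (ch l) := by
  unfold ch
  fun_prop

/-- The Fourier transform of the measure is nonnegative. -/
def PD (ν : Measure ℝ) : Prop := ∀ l : ℝ, ∃ r : ℝ, 0 ≤ r ∧ ∫ t, ch l t ∂ν = (r : ℂ)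

variable {ι : Type*} {α : ι → ℂ} {β : ι → ℝ} (lam : ι → ℝ)

/-- The trigonometric series. -/
noncomputable def TS (α : ι → ℂ) (t : ℝ) : ℂ := ∑' i, α i * ch (lam i) t

lemma norm_term (α : ι → ℂ) (i : ι) (t : ℝ) : ‖α i * ch (lam i) t‖ = ‖α i‖ := by
  rw [norm_mul, norm_ch, mul_one]

lemma summable_TS (hα : Summable fun i => ‖α i‖) (t : ℝ) :
    Summable fun i => α i * ch (lam i) t :=
  Summable.of_norm (by simpa only [norm_term] using hα)

lemma continuous_TS (hα : Summable fun i => ‖α i‖) : Continuous (TS lam α) :=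
  continuous_tsum (fun i => continuous_const.mul (continuous_ch (lam i))) hα
    fun i t => (norm_term lam α i t).le

lemma norm_TS_le (hα : Summable fun i => ‖α i‖) (t : ℝ) : ‖TS lam α t‖ ≤ ∑' i, ‖α i‖ := by
  refine (norm_tsum_le_tsum_norm (by simpa only [norm_term] using hα)).trans ?_
  simp only [norm_term, le_refl]

section

variable {ν : Measure ℝ} [IsFiniteMeasure ν]

lemma integrable_of_cont_bdd {F : ℝ → ℂ} (hF : Continuous F) {B : ℝ} (hB : ∀ t, ‖F t‖ ≤ B) :
    Integrable F ν :=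
  Integrable.of_bound hF.aestronglyMeasurable B (Filter.Eventually.of_forall hB)

lemma pow_step [Countable ι] (hα : Summable fun i => ‖α i‖) (k : ℕ) (m : ℝ) :
    HasSum (fun i => α i * ∫ t, TS lam α t ^ k * ch (m + lam i) t ∂ν)
      (∫ t, TS lam α t ^ (k + 1) * ch m t ∂ν) := by
  set B : ℝ := ∑' i, ‖α i‖ with hB
  have hB0 : 0 ≤ B := tsum_nonneg fun _ => norm_nonneg _
  have hcont : Continuous (TS lam α) := continuous_TS lam hα
  set F : ι → ℝ → ℂ := fun i t => α i * (TS lam α t ^ k * ch (m + lam i) t) with hF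
  have hFb : ∀ i t, ‖F i t‖ ≤ ‖α i‖ * B ^ k := by
    intro i t
    rw [hF]
    simp only
    rw [norm_mul, norm_mul, norm_ch, mul_one, norm_pow]
    exact mul_le_mul_of_nonneg_left (pow_le_pow_left₀ (norm_nonneg _) (norm_TS_le lam hα t) k)
      (norm_nonneg _)
  have hFc : ∀ i, Continuous (F i) := fun i =>
    continuous_const.mul ((hcont.pow k).mul (continuous_ch _))
  have h1 : ∀ i, Integrable (F i) ν := fun i => integrable_of_cont_bdd (hFc i) (hFb i)
  have h2 : Summable fun i => ∫ t, ‖F i t‖ ∂ν := by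
    refine Summable.of_nonneg_of_le (fun i => integral_nonneg fun t => norm_nonneg _) (fun i => ?_)
      (hα.mul_right (B ^ k * (ν Set.univ).toReal))
    calc ∫ t, ‖F i t‖ ∂ν ≤ ∫ t, ‖α i‖ * B ^ k ∂ν :=
          integral_mono (h1 i).norm (integrable_const _) fun t => hFb i t
      _ = ‖α i‖ * (B ^ k * (ν Set.univ).toReal) := by
          rw [integral_const, smul_eq_mul, Measure.real]
          ring
  have h3 := hasSum_integral_of_summable_integral_norm h1 h2
  have e1 : (fun t => ∑' i, F i t) = fun t => TS lam α t ^ (k + 1) * ch m t := by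
    funext t
    have : ∀ i, F i t = (α i * ch (lam i) t) * (TS lam α t ^ k * ch m t) := by
      intro i
      rw [hF]
      simp only
      rw [ch_add]
      ring
    simp_rw [this]
    rw [tsum_mul_right, pow_succ]
    change TS lam α t * _ = _
    ring
  have e2 : (fun i => ∫ t, F i t ∂ν) =
      fun i => α i * ∫ t, TS lam α t ^ k * ch (m + lam i) t ∂ν := by
    funext i
    rw [hF]
    simp only
    rw [integral_const_mul]
  rw [e1, e2] at h3
  exact h3

lemma pow_major [Countable ι] (hν : PD ν) (hβ : Summable β) (hαβ : ∀ i, ‖α i‖ ≤ β i) (k : ℕ) :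
    ∀ m : ℝ, ∃ r : ℝ, 0 ≤ r ∧ ∫ t, TS lam (fun i => (β i : ℂ)) t ^ k * ch m t ∂ν = (r : ℂ) ∧
      ‖∫ t, TS lam α t ^ k * ch m t ∂ν‖ ≤ r := by
  have hβ0 : ∀ i, 0 ≤ β i := fun i => (norm_nonneg _).trans (hαβ i)
  have hβn : ∀ i, ‖((β i : ℝ) : ℂ)‖ = β i := fun i => by
    rw [Complex.norm_real, Real.norm_eq_abs, abs_of_nonneg (hβ0 i)]
  have hα : Summable fun i => ‖α i‖ := Summable.of_nonneg_of_le (fun _ => norm_nonneg _) hαβ hβ
  have hβ' : Summable fun i => ‖((β i : ℝ) : ℂ)‖ := by simpa only [hβn] using hβ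
  induction k with
  | zero =>
    intro m
    obtain ⟨r, hr0, hr⟩ := hν m
    refine ⟨r, hr0, ?_, ?_⟩
    · simpa using hr
    · simp only [pow_zero, one_mul]
      rw [hr, Complex.norm_real, Real.norm_eq_abs, abs_of_nonneg hr0]
  | succ k ih =>
    intro m
    choose r hr0 hr1 hr2 using ih
    have h1 := pow_step (ν := ν) lam hα k m
    have h2 := pow_step (ν := ν) lam hβ' k m
    have h2' : HasSum (fun i => ((β i * r (m + lam i) : ℝ) : ℂ))
        (∫ t, TS lam (fun i => (β i : ℂ)) t ^ (k + 1) * ch m t ∂ν) := by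
      refine h2.congr_fun ?_ |> fun h => h
      intro i
      rw [hr1]
      push_cast
      rfl
    have hsum : Summable fun i => β i * r (m + lam i) := by
      have := h2'.summable
      exact_mod_cast this
    refine ⟨∑' i, β i * r (m + lam i), tsum_nonneg fun i => mul_nonneg (hβ0 i) (hr0 _), ?_, ?_⟩
    · rw [← h2'.tsum_eq, Complex.ofReal_tsum]
    · rw [← h1.tsum_eq]
      have hn : Summable fun i => ‖α i * ∫ t, TS lam α t ^ k * ch (m + lam i) t ∂ν‖ := by
        refine Summable.of_nonneg_of_le (fun _ => norm_nonneg _) (fun i => ?_) hsum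
        rw [norm_mul]
        exact mul_le_mul (hαβ i) (hr2 _) (norm_nonneg _) (hβ0 i)
      refine (norm_tsum_le_tsum_norm hn).trans (hn.tsum_le_tsum (fun i => ?_) hsum)
      rw [norm_mul]
      exact mul_le_mul (hαβ i) (hr2 _) (norm_nonneg _) (hβ0 i)

lemma exp_series (hα : Summable fun i => ‖α i‖) :
    HasSum (fun k : ℕ => (k.factorial : ℂ)⁻¹ * ∫ t, TS lam α t ^ k * ch 0 t ∂ν)
      (∫ t, Complex.exp (TS lam α t) ∂ν) := by
  set B : ℝ := ∑' i, ‖α i‖ with hB
  have hB0 : 0 ≤ B := tsum_nonneg fun _ => norm_nonneg _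
  have hcont : Continuous (TS lam α) := continuous_TS lam hα
  set F : ℕ → ℝ → ℂ := fun k t => (k.factorial : ℂ)⁻¹ * (TS lam α t ^ k * ch 0 t) with hF
  have hFb : ∀ k t, ‖F k t‖ ≤ B ^ k / k.factorial := by
    intro k t
    rw [hF]
    simp only
    rw [norm_mul, norm_mul, norm_ch, mul_one, norm_pow, norm_inv, Complex.norm_natCast,
      div_eq_inv_mul]
    exact mul_le_mul_of_nonneg_left (pow_le_pow_left₀ (norm_nonneg _) (norm_TS_le lam hα t) k)
      (by positivity)
  have hFc : ∀ k, Continuous (F k) := fun k =>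
    continuous_const.mul ((hcont.pow k).mul (continuous_ch _))
  have h1 : ∀ k, Integrable (F k) ν := fun k => integrable_of_cont_bdd (hFc k) (hFb k)
  have h2 : Summable fun k => ∫ t, ‖F k t‖ ∂ν := by
    refine Summable.of_nonneg_of_le (fun i => integral_nonneg fun t => norm_nonneg _) (fun k => ?_)
      ((Real.summable_pow_div_factorial B).mul_right (ν Set.univ).toReal)
    calc ∫ t, ‖F k t‖ ∂ν ≤ ∫ t, B ^ k / k.factorial ∂ν :=
          integral_mono (h1 k).norm (integrable_const _) fun t => hFb k t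
      _ = B ^ k / k.factorial * (ν Set.univ).toReal := by
          rw [integral_const, smul_eq_mul, Measure.real]
          ring
  have h3 := hasSum_integral_of_summable_integral_norm h1 h2
  have e1 : (fun t => ∑' k, F k t) = fun t => Complex.exp (TS lam α t) := by
    funext t
    rw [Complex.exp_eq_exp_ℂ, NormedSpace.exp_eq_tsum_div]
    refine tsum_congr fun k => ?_
    rw [hF]
    simp only
    rw [ch_zero, mul_one, div_eq_inv_mul]
  have e2 : (fun k => ∫ t, F k t ∂ν) =
      fun k : ℕ => (k.factorial : ℂ)⁻¹ * ∫ t, TS lam α t ^ k * ch 0 t ∂ν := by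
    funext k
    rw [hF]
    simp only
    rw [integral_const_mul]
  rw [e1, e2] at h3
  exact h3

/-- The majorant principle. -/
theorem major [Countable ι] (hν : PD ν) (hβ : Summable β) (hαβ : ∀ i, ‖α i‖ ≤ β i) :
    ‖∫ t, Complex.exp (TS lam α t) ∂ν‖ ≤
      (∫ t, Complex.exp (TS lam (fun i => (β i : ℂ)) t) ∂ν).re := by
  have hβ0 : ∀ i, 0 ≤ β i := fun i => (norm_nonneg _).trans (hαβ i)
  have hβn : ∀ i, ‖((β i : ℝ) : ℂ)‖ = β i := fun i => by
    rw [Complex.norm_real, Real.norm_eq_abs, abs_of_nonneg (hβ0 i)]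
  have hα : Summable fun i => ‖α i‖ := Summable.of_nonneg_of_le (fun _ => norm_nonneg _) hαβ hβ
  have hβ' : Summable fun i => ‖((β i : ℝ) : ℂ)‖ := by simpa only [hβn] using hβ
  choose r hr0 hr1 hr2 using fun k => pow_major (ν := ν) lam hν hβ hαβ k 0
  have h1 := exp_series (ν := ν) lam hα
  have h2 := exp_series (ν := ν) lam hβ'
  have h2' : HasSum (fun k : ℕ => (((k.factorial : ℝ)⁻¹ * r k : ℝ) : ℂ))
      (∫ t, Complex.exp (TS lam (fun i => (β i : ℂ)) t) ∂ν) := by
    have e : (fun k : ℕ => (((k.factorial : ℝ)⁻¹ * r k : ℝ) : ℂ)) =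
        fun k : ℕ => (k.factorial : ℂ)⁻¹ *
          ∫ t, TS lam (fun i => (β i : ℂ)) t ^ k * ch 0 t ∂ν := by
      funext k
      rw [hr1]
      push_cast
      rfl
    rw [e]
    exact h2
  have hsum : Summable fun k : ℕ => (k.factorial : ℝ)⁻¹ * r k := by
    have := h2'.summable
    exact_mod_cast this
  rw [← h2'.tsum_eq, ← Complex.ofReal_tsum, Complex.ofReal_re, ← h1.tsum_eq]
  have hb : ∀ k : ℕ, ‖(k.factorial : ℂ)⁻¹ * ∫ t, TS lam α t ^ k * ch 0 t ∂ν‖ ≤
      (k.factorial : ℝ)⁻¹ * r k := by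
    intro k
    rw [norm_mul, norm_inv, Complex.norm_natCast]
    exact mul_le_mul_of_nonneg_left (hr2 k) (by positivity)
  have hn : Summable fun k : ℕ => ‖(k.factorial : ℂ)⁻¹ * ∫ t, TS lam α t ^ k * ch 0 t ∂ν‖ :=
    Summable.of_nonneg_of_le (fun _ => norm_nonneg _) hb hsum
  exact (norm_tsum_le_tsum_norm hn).trans (hn.tsum_le_tsum hb hsum)

end

end Pool.Agent.Lib.MP_bf61d2_nt.Hardy
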