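import Pool.Agent.Lib.MP_bf61d2_nt.Hardy.Major

set_option autoImplicit false

/-!
The majorant principle for real cosine series, and a concrete measure on a short interval.
-/

namespace Pool.Agent.Lib.MP_bf61d2_nt.Hardy

open MeasureTheory Set

variable {P : Type*}

/-- The frequencies with both signs. -/
def lamB (lam : P → ℝ) : P × Bool → ℝ := fun q => if q.2 then lam q.1 else -lam q.1

lemma conj_ch (l t : ℝ) : (starRingEnd ℂ) (ch l t) = ch (-l) t := by
  rw [ch, ch, ← Complex.exp_conj]
  congr 1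
  simp only [map_mul, Complex.conj_ofReal, Complex.conj_I]
  push_cast
  ring

/-- The coefficients for both signs. -/
def coB (a : P → ℂ) : P × Bool → ℂ := fun q => if q.2 then a q.1 else (starRingEnd ℂ) (a q.1)

lemma norm_coB (a : P → ℂ) (q : P × Bool) : ‖coB a q‖ = ‖a q.1‖ := by
  unfold coB
  split_ifs
  · rfl
  · exact RCLike.norm_conj _

lemma summable_fst {b : P → ℝ} (hb0 : ∀ p, 0 ≤ b p) (hb : Summable b) :
    Summable fun q : P × Bool => b q.1 := by
  rw [summable_prod_of_nonneg (fun q => hb0 _)]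
  constructor
  · intro p
    exact (hasSum_fintype _).summable
  · simp only [tsum_fintype, Finset.sum_const, Finset.card_univ, Fintype.card_bool, nsmul_eq_mul]
    exact hb.mul_left _

lemma TS_re {lam : P → ℝ} {a : P → ℂ} (ha : Summable fun p => ‖a p‖) (x t : ℝ) :
    TS (lamB lam) (fun q => coB a q * ch (lamB lam q) x) t =
      ((2 * (∑' p, a p * ch (lam p) (x + t)).re : ℝ) : ℂ) := by
  have h0 : ∀ q : P × Bool, coB a q * ch (lamB lam q) x * ch (lamB lam q) t =
      coB a q * ch (lamB lam q) (x + t) := by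
    intro q
    rw [ch_add_arg]
    ring
  rw [TS]
  simp_rw [h0]
  have hs : Summable fun q : P × Bool => coB a q * ch (lamB lam q) (x + t) := by
    apply Summable.of_norm
    simp only [norm_mul, norm_ch, mul_one, norm_coB]
    exact summable_fst (fun p => norm_nonneg _) ha
  have ha' : Summable fun p => a p * ch (lam p) (x + t) := by
    apply Summable.of_norm
    simpa only [norm_mul, norm_ch, mul_one] using ha
  rw [hs.tsum_prod]
  have h1 : ∀ p : P, ∑' b : Bool, coB a (p, b) * ch (lamB lam (p, b)) (x + t) =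
      ((2 * (a p * ch (lam p) (x + t)).re : ℝ) : ℂ) := by
    intro p
    rw [tsum_fintype, Fintype.sum_bool]
    simp only [lamB, coB, if_true, Bool.false_eq_true, if_false]
    rw [← conj_ch, ← map_mul, Complex.add_conj]
  simp_rw [h1]
  rw [← Complex.ofReal_tsum, tsum_mul_left, Complex.re_tsum ha']

/-- The majorant principle for real parts. -/
theorem major_re [Countable P] {ν : Measure ℝ} [IsFiniteMeasure ν] (hν : PD ν) {lam : P → ℝ}
    {a : P → ℂ} {b : P → ℝ} (hab : ∀ p, ‖a p‖ ≤ b p) (hb : Summable b) (x : ℝ) :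
    ∫ t, Real.exp (2 * (∑' p, a p * ch (lam p) (x + t)).re) ∂ν ≤
      ∫ t, Real.exp (2 * ∑' p, b p * Real.cos (t * lam p)) ∂ν := by
  have hb0 : ∀ p, 0 ≤ b p := fun p => (norm_nonneg _).trans (hab p)
  have ha : Summable fun p => ‖a p‖ := Summable.of_nonneg_of_le (fun _ => norm_nonneg _) hab hb
  have hbn : ∀ p, ‖((b p : ℝ) : ℂ)‖ = b p := fun p => by
    rw [Complex.norm_real, Real.norm_eq_abs, abs_of_nonneg (hb0 p)]
  have hbc : Summable fun p => ‖((b p : ℝ) : ℂ)‖ := by simpa only [hbn] using hb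
  have hβ : Summable fun q : P × Bool => b q.1 := summable_fst hb0 hb
  have h := major (ν := ν) (lamB lam) (α := fun q => coB a q * ch (lamB lam q) x)
    (β := fun q => b q.1) hν hβ (fun q => by
      rw [norm_mul, norm_ch, mul_one, norm_coB]
      exact hab _)
  have e1 : (fun t => Complex.exp (TS (lamB lam) (fun q => coB a q * ch (lamB lam q) x) t)) =
      fun t => ((Real.exp (2 * (∑' p, a p * ch (lam p) (x + t)).re) : ℝ) : ℂ) := by
    funext t
    rw [TS_re ha, Complex.ofReal_exp]
  have e2 : (fun t => Complex.exp (TS (lamB lam) (fun q => ((b q.1 : ℝ) : ℂ)) t)) =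
      fun t => ((Real.exp (2 * ∑' p, b p * Real.cos (t * lam p)) : ℝ) : ℂ) := by
    funext t
    have h3 := TS_re (lam := lam) hbc 0 t
    have h4 : (fun q : P × Bool => coB (fun p => ((b p : ℝ) : ℂ)) q * ch (lamB lam q) 0) =
        fun q => ((b q.1 : ℝ) : ℂ) := by
      funext q
      simp [ch, coB]
    have h5 : (∑' p, ((b p : ℝ) : ℂ) * ch (lam p) (0 + t)).re =
        ∑' p, b p * Real.cos (t * lam p) := by
      rw [zero_add, Complex.re_tsum]
      · refine tsum_congr fun p => ?_
        rw [Complex.re_ofReal_mul, ch, Complex.exp_ofReal_mul_I_re, mul_comm (lam p)]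
      · apply Summable.of_norm
        simpa only [norm_mul, norm_ch, mul_one] using hbc
    rw [h4, h5] at h3
    rw [h3, Complex.ofReal_exp]
  rw [e1, e2, integral_complex_ofReal, integral_complex_ofReal, Complex.norm_real,
    Complex.ofReal_re] at h
  exact (le_abs_self _).trans h

/-! ### The measure -/

/-- The uniform measure on a short interval. -/
noncomputable def uni (ε : ℝ) : Measure ℝ := volume.restrict (Icc (-ε) ε)

instance (ε : ℝ) : IsFiniteMeasure (uni ε) := by
  unfold uni
  infer_instance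

/-- The law of the difference. -/
noncomputable def tri (ε : ℝ) : Measure ℝ :=
  ((uni ε).prod (uni ε)).map fun z : ℝ × ℝ => z.1 - z.2

instance (ε : ℝ) : IsFiniteMeasure (tri ε) := by
  unfold tri
  infer_instance

lemma integral_tri (ε : ℝ) {E : Type*} [NormedAddCommGroup E] [NormedSpace ℝ E] {F : ℝ → E}
    (hF : Continuous F) : ∫ t, F t ∂(tri ε) = ∫ z : ℝ × ℝ, F (z.1 - z.2) ∂((uni ε).prod (uni ε)) := by
  rw [tri, integral_map (by fun_prop) hF.aestronglyMeasurable]

lemma integral_uni {ε : ℝ} (hε : 0 ≤ ε) {E : Type*} [NormedAddCommGroup E] [NormedSpace ℝ E]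
    (F : ℝ → E) : ∫ t, F t ∂(uni ε) = ∫ t in (-ε)..ε, F t := by
  rw [uni, intervalIntegral.integral_of_le (by linarith), integral_Icc_eq_integral_Ioc]

lemma PD_tri (ε : ℝ) : PD (tri ε) := by
  intro l
  refine ⟨‖∫ t, ch l t ∂(uni ε)‖ ^ 2, sq_nonneg _, ?_⟩
  rw [integral_tri ε (continuous_ch l)]
  have e : (fun z : ℝ × ℝ => ch l (z.1 - z.2)) =
      fun z : ℝ × ℝ => ch l z.1 * (starRingEnd ℂ) (ch l z.2) := by
    funext z
    rw [ch, ch, ch, ← Complex.exp_conj, ← Complex.exp_add]
    congr 1
    simp only [map_mul, Complex.conj_ofReal, Complex.conj_I]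
    push_cast
    ring
  rw [e, integral_prod_mul (ch l) (fun w => (starRingEnd ℂ) (ch l w)), integral_conj,
    Complex.mul_conj, Complex.normSq_eq_norm_sq]

lemma integrable_prod_sub {ε : ℝ} {F : ℝ → ℝ} (hF : Continuous F) :
    Integrable (fun z : ℝ × ℝ => F (z.1 - z.2)) ((uni ε).prod (uni ε)) := by
  obtain ⟨B, hB⟩ := (isCompact_Icc (a := -(2 * ε)) (b := 2 * ε)).exists_bound_of_continuousOn
    hF.continuousOn
  have hm : ∀ᵐ z ∂((uni ε).prod (uni ε)), z ∈ Icc (-ε) ε ×ˢ Icc (-ε) ε := by
    rw [uni, Measure.prod_restrict]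
    exact ae_restrict_mem (measurableSet_Icc.prod measurableSet_Icc)
  refine Integrable.of_bound (hF.comp (by fun_prop)).aestronglyMeasurable B ?_
  filter_upwards [hm] with z hz
  apply hB
  have h1 := hz.1
  have h2 := hz.2
  simp only [mem_Icc] at h1 h2 ⊢
  constructor <;> linarith

lemma integral_tri_iter {ε : ℝ} (hε : 0 ≤ ε) {F : ℝ → ℝ} (hF : Continuous F) :
    ∫ t, F t ∂(tri ε) = ∫ w, (∫ u in (-ε - w)..(ε - w), F u) ∂(uni ε) := by
  rw [integral_tri ε hF]
  have h := integral_prod_symm (μ := uni ε) (ν := uni ε) (fun z : ℝ × ℝ => F (z.1 - z.2))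
    (integrable_prod_sub (ε := ε) hF)
  rw [h]
  refine integral_congr_ae (Filter.Eventually.of_forall fun w => ?_)
  simp only
  rw [integral_uni hε, intervalIntegral.integral_comp_sub_right]

lemma continuous_inner {ε : ℝ} {F : ℝ → ℝ} (hF : Continuous F) :
    Continuous fun w : ℝ => ∫ u in (-ε - w)..(ε - w), F u := by
  have h1 : Continuous fun x : ℝ => ∫ u in (0 : ℝ)..x, F u :=
    intervalIntegral.continuous_primitive (fun a b => hF.intervalIntegrable a b) 0
  have e : (fun w : ℝ => ∫ u in (-ε - w)..(ε - w), F u) =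
      fun w => (∫ u in (0 : ℝ)..(ε - w), F u) - ∫ u in (0 : ℝ)..(-ε - w), F u := by
    funext w
    rw [intervalIntegral.integral_interval_sub_left (hF.intervalIntegrable _ _)
      (hF.intervalIntegrable _ _)]
  rw [e]
  exact (h1.comp (by fun_prop)).sub (h1.comp (by fun_prop))

lemma integrable_inner (ε : ℝ) {F : ℝ → ℝ} (hF : Continuous F) :
    Integrable (fun w : ℝ => ∫ u in (-ε - w)..(ε - w), F u) (uni ε) := by
  unfold uni
  exact (continuous_inner hF).continuousOn.integrableOn_Icc

lemma tri_lower {ε : ℝ} (hε : 0 < ε) {F : ℝ → ℝ} (hF : Continuous F) (hF0 : ∀ t, 0 ≤ F t) :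
    ε * ∫ u in (-(ε / 2))..(ε / 2), F u ≤ ∫ t, F t ∂(tri ε) := by
  rw [integral_tri_iter hε.le hF]
  set G : ℝ → ℝ := fun w => ∫ u in (-ε - w)..(ε - w), F u with hG
  set J : ℝ := ∫ u in (-(ε / 2))..(ε / 2), F u with hJ
  have hG0 : ∀ w, 0 ≤ G w := fun w =>
    intervalIntegral.integral_nonneg (by linarith) fun u _ => hF0 u
  have h1 : ∫ w in Icc (-(ε / 2)) (ε / 2), G w ≤ ∫ w, G w ∂(uni ε) := by
    rw [uni]
    refine setIntegral_mono_set ((continuous_inner hF).continuousOn.integrableOn_Icc)
      (Filter.Eventually.of_forall hG0) (Filter.Eventually.of_forall ?_)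
    intro w hw
    have := hw.1
    have := hw.2
    exact ⟨by linarith, by linarith⟩
  refine le_trans ?_ h1
  have h2 : ∫ w in Icc (-(ε / 2)) (ε / 2), J ≤ ∫ w in Icc (-(ε / 2)) (ε / 2), G w := by
    refine setIntegral_mono_on (integrableOn_const (by simp)) ((continuous_inner hF).continuousOn.integrableOn_Icc)
      measurableSet_Icc fun w hw => ?_
    have hw1 := hw.1
    have hw2 := hw.2
    rw [hJ, hG]
    simp only
    exact intervalIntegral.integral_mono_interval (by linarith) (by linarith) (by linarith)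
      (Filter.Eventually.of_forall hF0) (hF.intervalIntegrable _ _)
  refine le_trans (le_of_eq ?_) h2
  rw [setIntegral_const, smul_eq_mul, Measure.real, Real.volume_Icc, ENNReal.toReal_ofReal (by linarith)]
  ring

lemma tri_upper {ε : ℝ} (hε : 0 < ε) {F : ℝ → ℝ} (hF : Continuous F) (hF0 : ∀ t, 0 ≤ F t) :
    ∫ t, F t ∂(tri ε) ≤ 2 * ε * ∫ u in (-(2 * ε))..(2 * ε), F u := by
  rw [integral_tri_iter hε.le hF]
  set J : ℝ := ∫ u in (-(2 * ε))..(2 * ε), F u with hJ
  have h1 : ∫ w, (∫ u in (-ε - w)..(ε - w), F u) ∂(uni ε) ≤ ∫ _, J ∂(uni ε) := by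
    rw [uni]
    refine setIntegral_mono_on ((continuous_inner hF).continuousOn.integrableOn_Icc)
      (integrableOn_const (by simp)) measurableSet_Icc fun w hw => ?_
    have hw1 := hw.1
    have hw2 := hw.2
    exact intervalIntegral.integral_mono_interval (by linarith) (by linarith) (by linarith)
      (Filter.Eventually.of_forall hF0) (hF.intervalIntegrable _ _)
  refine h1.trans (le_of_eq ?_)
  rw [integral_const, smul_eq_mul, Measure.real, uni, Measure.restrict_apply_univ, Real.volume_Icc,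
    ENNReal.toReal_ofReal (by linarith)]
  ring

end Pool.Agent.Lib.MP_bf61d2_nt.Hardy
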